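import Pool.Agent.J4H87.K5.Asm
import Pool.Agent.J4H22.K5.K4

set_option autoImplicit false

/-!
# MP_833c63_pr: the budget threshold for `K₅`

If `1 ≤ b ≤ t ≤ n.choose 2` and `t = o(n^{3/2})` or `b = o(max{n^12 t^-7, (n²/t)^{5/3}})`, then the largest probability with which a
`(t, b)`-strategy builds a `K₅` tends to `0`.

Paper proof: `Pool/Agent/J4H87/K5/Stm.lean`.
-/

namespace Pool.Agent.Results.MP_833c63_pr.BudgetThreshold

open Filter Topology
open scoped Classical

noncomputable section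

/-- the pairs of `[n]` -/
abbrev Pair (n : ℕ) := {e : Sym2 (Fin n) // ¬ e.IsDiag}

/-- the random graph process: an order of the pairs of `[n]` (the pair `ω j` is offered at the time `j + 1`) -/
abbrev Order (n : ℕ) := Fin (n.choose 2) ≃ Pair n

/-- the edge offered at the time `j + 1` -/
def offered {n : ℕ} (ω : Order n) (j : Fin (n.choose 2)) : Sym2 (Fin n) := (ω j).1

/-- the list of the first `i` offered edges -/
def history {n : ℕ} (ω : Order n) (i : ℕ) : List (Sym2 (Fin n)) := (List.ofFn (offered ω)).take i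

/-- the set of the edges bought at the times `1, …, i`: with the strategy `A`, the edge offered at the time `j + 1` is bought if and
only if `A` holds for the list of the first `j + 1` offered edges -/
def bought {n : ℕ} (A : List (Sym2 (Fin n)) → Prop) (ω : Order n) (i : ℕ) : Finset (Sym2 (Fin n)) :=
  ((Finset.univ : Finset (Fin (n.choose 2))).filter (fun j => j.1 < i ∧ A (history ω (j.1 + 1)))).image (offered ω)

/-- `A` is a `(t, b)`-strategy: it never buys more than `b` of the first `t` offered edges -/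
def IsStrategy {n : ℕ} (t b : ℕ) (A : List (Sym2 (Fin n)) → Prop) : Prop :=
  ∀ ω : Order n, (bought A ω t).card ≤ b

/-- the probability of an event: the proportion of the orders -/
def prob {n : ℕ} (E : Order n → Prop) : ℝ :=
  ((Finset.univ.filter E).card : ℝ) / (Fintype.card (Order n) : ℝ)

/-- the graph with the edge set `S` contains a copy of `K₅` -/
def ContainsK5 {n : ℕ} (S : Finset (Sym2 (Fin n))) : Prop :=
  ∃ x : Fin 5 → Fin n, Function.Injective x ∧ ∀ i j : Fin 5, i ≠ j → s(x i, x j) ∈ S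

/-- `Φ(n, t) = max{n^12 t^-7, (n² / t)^{5/3}}` -/
def Φ (n t : ℕ) : ℝ := max ((n : ℝ) ^ 12 / (t : ℝ) ^ 7) (((n : ℝ) ^ 2 / t) ^ ((5 : ℝ) / 3))

theorem result (t b : ℕ → ℕ)
    (hb : ∀ᶠ n : ℕ in atTop, 1 ≤ b n ∧ b n ≤ t n ∧ t n ≤ n.choose 2)
    (h : Tendsto (fun n : ℕ => (t n : ℝ) / (n : ℝ) ^ ((3 : ℝ) / 2)) atTop (𝓝 0) ∨
      Tendsto (fun n : ℕ => (b n : ℝ) / Φ n (t n)) atTop (𝓝 0)) :
    ∀ ε : ℝ, 0 < ε → ∀ᶠ n : ℕ in atTop, ∀ A : List (Sym2 (Fin n)) → Prop, IsStrategy (t n) (b n) A →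
      prob (fun ω : Order n => ContainsK5 (bought A ω (t n))) ≤ ε :=
  fun ε hε => Pool.Agent.J4H87.K5.uniform
    (Pool.Agent.J4H87.K5.thm_of_K4 (Pool.Agent.J4H22.K5.t_K4 Pool.Agent.J4H15.K5.t_CL)) t b hb h ε hε

end

end Pool.Agent.Results.MP_833c63_pr.BudgetThreshold
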